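import Mathlib

namespace Pool.Agent.Results.MP_cd30d4_co.NonnegTaylor

open Finset

/-- The entire function `G_r(x) = e^{-x/(r+1)} (e^x - ∑_{k<r} x^k/k!)`, on the real line. -/
noncomputable def G (r : ℕ) (x : ℝ) : ℝ :=
  Real.exp (-x / ((r : ℝ) + 1)) * (Real.exp x - ∑ k ∈ range r, x ^ k / (k.factorial : ℝ))

/-- auxiliary family with a free parameter -/
noncomputable def H (a : ℝ) (i : ℕ) (x : ℝ) : ℝ :=
  Real.exp (-a * x) * (Real.exp x - ∑ k ∈ range i, x ^ k / (k.factorial : ℝ))

/-- the derivatives at zero -/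
noncomputable def h (a : ℝ) : ℕ → ℕ → ℝ
  | 0, n => (1 - a) ^ n
  | _ + 1, 0 => 0
  | i + 1, n + 1 => -a * h a (i + 1) n + h a i n

theorem h_ss (a : ℝ) (i n : ℕ) : h a (i + 1) (n + 1) = -a * h a (i + 1) n + h a i n := by
  rw [h]

/-- `C(n,i) (-a)^(n-i)` by recursion -/
noncomputable def m (a : ℝ) (i n : ℕ) : ℝ := (n.choose i : ℝ) * (-a) ^ (n - i)

theorem m_rec (a : ℝ) (i n : ℕ) : m a (i + 1) (n + 1) = -a * m a (i + 1) n + m a i n := by
  unfold m
  rcases lt_or_ge n (i + 1) with h | h
  · rw [Nat.choose_eq_zero_of_lt h]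
    rw [Nat.choose_succ_succ, Nat.choose_eq_zero_of_lt h]
    simp
  · rw [Nat.choose_succ_succ]
    have e1 : n + 1 - (i + 1) = (n - (i + 1)) + 1 := by omega
    have e2 : n - i = (n - (i + 1)) + 1 := by omega
    rw [e1, e2, pow_succ]
    push_cast
    ring

theorem m_zero (a : ℝ) (n : ℕ) : m a 0 n = (-a) ^ n := by
  simp [m]

theorem h_rec (a : ℝ) (i n : ℕ) : h a (i + 1) (n + 1) = (1 - a) * h a (i + 1) n + m a i n := by
  induction n generalizing i with
  | zero =>
    cases i with
    | zero => simp [h, m]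
    | succ i => simp [h, m]
  | succ n ih =>
    cases i with
    | zero =>
      have h1 := ih 0
      rw [m_zero] at h1 ⊢
      have e : h a (0 + 1) (n + 1 + 1) = -a * h a (0 + 1) (n + 1) + h a 0 (n + 1) :=
        h_ss a 0 (n + 1)
      have e' : h a (0 + 1) (n + 1) = -a * h a (0 + 1) n + h a 0 n := h_ss a 0 n
      have e0 : h a 0 (n + 1) = (1 - a) * h a 0 n := by
        simp only [h]; ring
      rw [e, e0, pow_succ]
      linear_combination (-a) * h1 - (1 - a) * e'
    | succ i =>
      have h1 := ih (i + 1)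
      have h2 := ih i
      have e : h a (i + 1 + 1) (n + 1 + 1) = -a * h a (i + 1 + 1) (n + 1) + h a (i + 1) (n + 1) := by
        rw [h]
      have e' : h a (i + 1 + 1) (n + 1) = -a * h a (i + 1 + 1) n + h a (i + 1) n := by rw [h]
      rw [e, m_rec]
      linear_combination (-a) * h1 + h2 - (1 - a) * e'

theorem H_contDiff (a : ℝ) (i : ℕ) : ContDiff ℝ ⊤ (H a i) := by
  unfold H
  apply ContDiff.mul
  · exact Real.contDiff_exp.comp (contDiff_const.mul contDiff_id)
  · apply Real.contDiff_exp.sub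
    apply ContDiff.sum
    intro k _
    exact (contDiff_id.pow k).div_const _

theorem deriv_sum (i : ℕ) (x : ℝ) :
    HasDerivAt (fun x : ℝ => ∑ k ∈ range (i + 1), x ^ k / (k.factorial : ℝ))
      (∑ k ∈ range i, x ^ k / (k.factorial : ℝ)) x := by
  induction i with
  | zero =>
    simp only [zero_add, range_one, sum_singleton, range_zero, sum_empty, pow_zero]
    exact hasDerivAt_const _ _
  | succ i ih =>
    have h1 : HasDerivAt (fun x : ℝ => x ^ (i + 1) / ((i + 1).factorial : ℝ))
        (x ^ i / (i.factorial : ℝ)) x := by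
      have := (hasDerivAt_pow (i + 1) x).div_const ((i + 1).factorial : ℝ)
      refine this.congr_deriv ?_
      rw [Nat.factorial_succ]
      push_cast
      have hf : (i.factorial : ℝ) ≠ 0 := by exact_mod_cast i.factorial_ne_zero
      have hi : ((i : ℝ) + 1) ≠ 0 := by positivity
      field_simp
    have h2 := ih.add h1
    rw [sum_range_succ (n := i)]
    refine h2.congr_of_eventuallyEq (Filter.Eventually.of_forall ?_)
    intro y
    exact sum_range_succ (fun k => y ^ k / (k.factorial : ℝ)) (i + 1)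

theorem H_deriv_succ (a : ℝ) (i : ℕ) : deriv (H a (i + 1)) = fun x => -a * H a (i + 1) x + H a i x := by
  funext x
  have h1 : HasDerivAt (fun x : ℝ => Real.exp (-a * x)) (Real.exp (-a * x) * (-a)) x := by
    have := ((hasDerivAt_id x).const_mul (-a)).exp
    simpa using this
  have h2 := h1.mul ((Real.hasDerivAt_exp x).sub (deriv_sum i x))
  have h3 : HasDerivAt (H a (i + 1)) (-a * H a (i + 1) x + H a i x) x := by
    refine HasDerivAt.congr_deriv h2 ?_
    simp only [H, Pi.sub_apply]
    ring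
  exact h3.deriv

theorem H_deriv_zero (a : ℝ) : deriv (H a 0) = fun x => (1 - a) * H a 0 x := by
  funext x
  have h1 : HasDerivAt (fun x : ℝ => Real.exp (-a * x)) (Real.exp (-a * x) * (-a)) x := by
    have := ((hasDerivAt_id x).const_mul (-a)).exp
    simpa using this
  have h2 := h1.mul (Real.hasDerivAt_exp x)
  have h3 : HasDerivAt (H a 0) ((1 - a) * H a 0 x) x := by
    have e : H a 0 = (fun x : ℝ => Real.exp (-a * x)) * Real.exp := by
      funext y
      simp [H]
    rw [e]
    refine HasDerivAt.congr_deriv h2 ?_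
    simp only [Pi.mul_apply]
    ring
  exact h3.deriv

theorem iter_H (a : ℝ) (n i : ℕ) : iteratedDeriv n (H a i) 0 = h a i n := by
  induction n generalizing i with
  | zero =>
    cases i with
    | zero => simp [H, h]
    | succ i =>
      simp only [iteratedDeriv_zero, H, h]
      rw [sum_range_succ']
      simp
  | succ n ih =>
    rw [iteratedDeriv_succ']
    cases i with
    | zero =>
      rw [H_deriv_zero]
      have hc : ContDiffAt ℝ n (H a 0) 0 := ((H_contDiff a 0).of_le le_top).contDiffAt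
      rw [iteratedDeriv_const_mul_field, ih 0]
      simp only [h]; ring
    | succ i =>
      rw [H_deriv_succ]
      have hc : ContDiffAt ℝ n (H a i) 0 := ((H_contDiff a i).of_le le_top).contDiffAt
      have hc' : ContDiffAt ℝ n (fun x => -a * H a (i + 1) x) 0 :=
        (contDiff_const.mul ((H_contDiff a (i + 1)).of_le le_top)).contDiffAt
      have : (fun x => -a * H a (i + 1) x + H a i x) = (fun x => -a * H a (i + 1) x) + H a i := rfl
      rw [this, iteratedDeriv_add hc' hc, iteratedDeriv_const_mul_field, ih, ih]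
      rw [h]

theorem choose_ineq (s j : ℕ) : (s + 1 + j).choose s ≤ (s + 1) * (s + j).choose s := by
  have h := Nat.choose_mul_succ_eq (s + j) s
  have e : s + j + 1 - s = j + 1 := by omega
  rw [e] at h
  have e2 : s + 1 + j = s + j + 1 := by ring
  rw [e2]
  have h3 : (s + j).choose s * (s + j + 1) ≤ (s + j).choose s * ((s + 1) * (j + 1)) := by
    apply Nat.mul_le_mul_left
    nlinarith [Nat.zero_le (s * j)]
  have h4 : (s + j + 1).choose s * (j + 1) ≤ ((s + 1) * (s + j).choose s) * (j + 1) := by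
    rw [← h]
    calc _ ≤ _ := h3
      _ = _ := by ring
  exact Nat.le_of_mul_le_mul_right h4 (by omega)

theorem h_small (a : ℝ) (s n : ℕ) (hn : n ≤ s) : h a (s + 1) n = 0 := by
  induction n generalizing s with
  | zero => simp [h]
  | succ n ih =>
    cases s with
    | zero => omega
    | succ s =>
      rw [h, ih (s + 1) (by omega), ih s (by omega)]
      ring

theorem h_even (s k : ℕ) (a : ℝ) (ha : a = 1 / ((s : ℝ) + 2)) :
    ((s + 2 * k).choose s : ℝ) * a ^ (2 * k) ≤ h a (s + 1) (s + 1 + 2 * k) ∧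
      0 ≤ h a (s + 1) (s + 1 + 2 * k + 1) := by
  have hs : (0 : ℝ) < (s : ℝ) + 2 := by positivity
  have ha0 : 0 < a := by rw [ha]; positivity
  have ha1 : 1 - a = (s + 1) * a := by
    rw [ha]; field_simp; ring
  have step : ∀ k : ℕ, ((s + 2 * k).choose s : ℝ) * a ^ (2 * k) ≤ h a (s + 1) (s + 1 + 2 * k) →
      0 ≤ h a (s + 1) (s + 1 + 2 * k + 1) := by
    intro k hk
    rw [h_rec]
    have e : m a s (s + 1 + 2 * k) = - (((s + 1 + 2 * k).choose s : ℝ) * a ^ (2 * k + 1)) := by
      unfold m
      have : s + 1 + 2 * k - s = 2 * k + 1 := by omega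
      rw [this, Odd.neg_pow ⟨k, rfl⟩]
      ring
    rw [e, ha1]
    have h1 : ((s + 1 + 2 * k).choose s : ℝ) ≤ ((s : ℝ) + 1) * ((s + 2 * k).choose s : ℝ) := by
      exact_mod_cast choose_ineq s (2 * k)
    have h2 : 0 < a ^ (2 * k + 1) := by positivity
    have h3 : ((s : ℝ) + 1) * a * (((s + 2 * k).choose s : ℝ) * a ^ (2 * k)) ≤
        ((s : ℝ) + 1) * a * h a (s + 1) (s + 1 + 2 * k) :=
      mul_le_mul_of_nonneg_left hk (by positivity)
    have h4 : ((s + 1 + 2 * k).choose s : ℝ) * a ^ (2 * k + 1) ≤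
        (((s : ℝ) + 1) * ((s + 2 * k).choose s : ℝ)) * a ^ (2 * k + 1) :=
      mul_le_mul_of_nonneg_right h1 h2.le
    have h5 : (((s : ℝ) + 1) * ((s + 2 * k).choose s : ℝ)) * a ^ (2 * k + 1) =
        ((s : ℝ) + 1) * a * (((s + 2 * k).choose s : ℝ) * a ^ (2 * k)) := by
      rw [pow_succ]; ring
    linarith
  have main : ∀ k : ℕ, ((s + 2 * k).choose s : ℝ) * a ^ (2 * k) ≤ h a (s + 1) (s + 1 + 2 * k) := by
    intro k
    induction k with
    | zero =>
      simp only [mul_zero, add_zero, Nat.choose_self, pow_zero, Nat.cast_one, mul_one]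
      rw [h_rec, h_small a s s le_rfl]
      simp [m]
    | succ k ih =>
      have hp := step k ih
      have e0 : s + 1 + 2 * (k + 1) = (s + 1 + 2 * k + 1) + 1 := by ring
      rw [e0, h_rec]
      have e : m a s (s + 1 + 2 * k + 1) = ((s + 2 * (k + 1)).choose s : ℝ) * a ^ (2 * (k + 1)) := by
        unfold m
        have e1 : s + 1 + 2 * k + 1 - s = 2 * (k + 1) := by omega
        have e2 : s + 1 + 2 * k + 1 = s + 2 * (k + 1) := by ring
        rw [e1, e2, Even.neg_pow ⟨k + 1, by ring⟩]
      rw [e]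
      have : 0 ≤ (1 - a) * h a (s + 1) (s + 1 + 2 * k + 1) := by
        rw [ha1]; positivity
      linarith
  exact ⟨main k, step k (main k)⟩

theorem h_nonneg (s n : ℕ) : 0 ≤ h (1 / ((s : ℝ) + 2)) (s + 1) n := by
  rcases Nat.lt_or_ge s n with hn | hn
  · obtain ⟨j, rfl⟩ : ∃ j, n = s + 1 + j := ⟨n - (s + 1), by omega⟩
    rcases Nat.even_or_odd' j with ⟨k, rfl | rfl⟩
    · have := (h_even s k _ rfl).1
      refine le_trans ?_ this
      positivity
    · exact (h_even s k _ rfl).2
  · rw [h_small _ s n hn]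

/-- **Main theorem.** For every `r ≥ 1` all Taylor coefficients of `G_r` at `0` are
non-negative. -/
theorem result (r : ℕ) (hr : 1 ≤ r) (n : ℕ) :
    0 ≤ iteratedDeriv n (G r) 0 / (n.factorial : ℝ) := by
  obtain ⟨s, rfl⟩ : ∃ s, r = s + 1 := ⟨r - 1, by omega⟩
  have e : G (s + 1) = H (1 / ((s : ℝ) + 2)) (s + 1) := by
    funext x
    simp only [G, H]
    congr 2
    push_cast
    have : (s : ℝ) + 1 + 1 = s + 2 := by ring
    rw [this]
    ring
  rw [e, iter_H]
  exact div_nonneg (h_nonneg s n) (by positivity)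

end Pool.Agent.Results.MP_cd30d4_co.NonnegTaylor
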